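import Pool.Agent.Helper53.KC.Goals

/-!
# Almost every matroid is `k`-connected, packet RNG: the trivial upper bound
-/

namespace Pool.Agent.Helper61.KC

open Finset Pool.Agent.Helper53.KC

theorem rng (hE : ExtStmt) : RngStmt := by
  intro n r
  classical
  unfold nmat
  have h1 : Set.ncard {M : Matroid (Fin n) | Rk r M ∧ (∅ : Finset (Finset (Fin n))) ⊆ NB r M} ≤
      Set.ncard (((V n r).powerset : Finset (Finset (Finset (Fin n)))) :
        Set (Finset (Finset (Fin n)))) := by
    refine Set.ncard_le_ncard_of_injOn (fun M => NB r M) ?_ ?_ (Finset.finite_toSet _)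
    · intro M _
      exact Finset.mem_coe.2 (Finset.mem_powerset.2 (Finset.filter_subset _ _))
    · intro M hM M' hM' h
      exact hE n r M M' hM.1 hM'.1 h
  refine h1.trans ?_
  rw [Set.ncard_coe_finset, Finset.card_powerset]
  unfold V
  rw [Finset.card_powersetCard, Finset.card_univ, Fintype.card_fin]

end Pool.Agent.Helper61.KC
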